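import Pool.Agent.H95.Fat.Final

/-! A locked chain of five fat links whose link length ratio is `1.00079434`. -/

set_option autoImplicit false

namespace Pool.Agent.Results.MP_0c5608_co.LockedRatioNearOne

open Pool.Agent.H95.Fat

/-- There is `L > 2` such that every chain of five fat links (radius one) with link lengths
`a, L, L, L, b`, where `a, b ≥ 1.00079434 * L`, has a locked simple configuration. In particular
every real number `R ≥ 1.00079434` is the link length ratio of a chain of five fat links that has a
locked simple configuration (take `a = b = R * L`). -/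
theorem result : ∃ L : ℝ, 2 < L ∧ ∀ a b : ℝ, (1.00079434 : ℝ) * L ≤ a →
    (1.00079434 : ℝ) * L ≤ b →
      ∃ v : Fin 6 → EuclideanSpace ℝ (Fin 3), IsLocked ![a, L, L, L, b] v := by
  refine ⟨LL, LL_gt, fun a b ha hb => ⟨V0 a b, ?_⟩⟩
  have e : (1.00079434 : ℝ) = 100079434/10^8 := by norm_num
  rw [e] at ha hb
  exact locked a b ha hb

end Pool.Agent.Results.MP_0c5608_co.LockedRatioNearOne
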